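import Pool.Agent.H12.KG.Targets2

/-!
# Row BBP of the board `kpg_modules`: properties of the ring `B_y(w)`
-/

namespace Pool.Agent.H63.KG

open AlgebraicGeometry CategoryTheory Pool.Agent.H12.KP Pool.Agent.H12.KG Pool.Agent.H62.MK
  Pool.Agent.H19.KN

universe u

/-! ## Commutative algebra -/

section alg

variable {A F : Type u} [CommRing A] [Field F] (f : A →+* F)

theorem mem_icl_iff (b : F) : b ∈ icl f.range F ↔ f.IsIntegralElem b := by
  have h0 : b ∈ icl f.range F ↔ IsIntegral f.range b := Iff.rfl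
  rw [h0]
  constructor
  · rintro ⟨p, hp, hpb⟩
    have hl : p ∈ Polynomial.lifts f.rangeRestrict := by
      rw [Polynomial.lifts_iff_coeff_lifts]
      intro n
      obtain ⟨a, ha⟩ := f.rangeRestrict_surjective (p.coeff n)
      exact ⟨a, ha⟩
    obtain ⟨q, hq, -, hqm⟩ := Polynomial.lifts_and_natDegree_eq_and_monic hl hp
    refine ⟨q, hqm, ?_⟩
    rw [← hq, Polynomial.eval₂_map] at hpb
    exact hpb
  · rintro ⟨q, hq, hqb⟩
    refine ⟨q.map f.rangeRestrict, hq.map _, ?_⟩
    rw [Polynomial.eval₂_map]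
    exact hqb

/-- `1 + π a` is invertible in the integral closure -/
theorem jac_icl [IsLocalRing A] (π : A) (hπ : ¬ IsUnit π) (a : F) (ha : a ∈ icl f.range F) :
    ∃ b ∈ icl f.range F, (1 + f π * a) * b = 1 := by
  let B := integralClosure f.range F
  have hloc : IsLocalHom f.rangeRestrict :=
    IsLocalHom.of_surjective _ f.rangeRestrict_surjective
  let π' : f.range := f.rangeRestrict π
  have hπ' : ¬ IsUnit π' := fun h => hπ (isUnit_of_map_unit f.rangeRestrict π h)
  have hR : IsLocalRing f.range := IsLocalRing.of_surjective' f.rangeRestrict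
    f.rangeRestrict_surjective
  let a' : B := ⟨a, ha⟩
  let x : B := 1 + algebraMap f.range B π' * a'
  have hx : IsUnit x := by
    by_contra hx
    obtain ⟨M, hM, hxM⟩ := exists_max_ideal_of_mem_nonunits hx
    have h1 : (M.comap (algebraMap f.range B)).IsMaximal :=
      Ideal.isMaximal_comap_of_isIntegral_of_isMaximal (R := f.range) M
    have h2 : π' ∈ M.comap (algebraMap f.range B) := by
      rw [IsLocalRing.eq_maximalIdeal h1]
      exact (IsLocalRing.mem_maximalIdeal _).2 hπ'
    have h3 : algebraMap f.range B π' * a' ∈ M := M.mul_mem_right _ h2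
    have h4 : (1 : B) ∈ M := by
      have := M.sub_mem hxM h3
      have e : x - algebraMap f.range B π' * a' = 1 := add_sub_cancel_right _ _
      rwa [e] at this
    exact hM.ne_top ((Ideal.eq_top_iff_one M).2 h4)
  obtain ⟨y, hy⟩ := hx.exists_right_inv
  refine ⟨y, y.2, ?_⟩
  have h5 := congrArg (fun z : B => (z : F)) hy
  exact h5

end alg

/-! ## Schemes -/

section sch

variable {X : Scheme.{u}}

theorem rho_comp {w z x : X} (hz : w ⤳ z) (hzx : z ⤳ x) (hx : w ⤳ x) (s : X.presheaf.stalk x) :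
    rho hx s = rho hz ((X.presheaf.stalkSpecializes hzx).hom s) := by
  unfold rho
  have h1 : X.presheaf.stalkSpecializes hx =
      X.presheaf.stalkSpecializes hzx ≫ X.presheaf.stalkSpecializes hz :=
    (TopCat.Presheaf.stalkSpecializes_comp X.presheaf hz hzx).symm
  rw [h1]
  rfl

theorem kA_eq {A : Type u} [CommRing A] (f : X ⟶ Spec (CommRingCat.of A)) {w y : X} (h : w ⤳ y)
    (a : A) : kA f w a = rho h (stA f y a) := by
  unfold kA rho stA
  have h1 : X.presheaf.germ ⊤ y trivial ≫ X.presheaf.stalkSpecializes h =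
      X.presheaf.germ ⊤ w trivial :=
    TopCat.Presheaf.germ_stalkSpecializes X.presheaf (U := ⊤) trivial h
  rw [← h1]
  rfl

end sch

theorem pf_BBP (hK : S_K1D.{u}) : S_BBP.{u} := by
  intro A _ X f π w y h
  have hint : ∀ b : X.residueField w, b ∈ BB h ↔ (rho h).IsIntegralElem b := fun b =>
    mem_icl_iff (rho h) b
  have hk : ∀ a : A, kA f w a ∈ BB h := fun a => by
    rw [hint, kA_eq f h]
    exact (rho h).isIntegralElem_map
  have hj : Sp f π y → ∀ a ∈ BB h, ∃ b ∈ BB h, (1 + kA f w π * a) * b = 1 := by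
    intro hS a ha
    rw [kA_eq f h]
    exact jac_icl (rho h) (stA f y π) hS a ha
  refine ⟨hint, hk, hj, ?_, ?_, ?_⟩
  · intro q n hS hn g hg
    obtain ⟨t, s, ⟨a, ha, hs⟩, hgt⟩ := ((hK (X.residueField w)).2.2.2.2 q n (kA f w π) (BB h)
      (hk π) hn (hj hS) g).1 hg
    refine ⟨t, a, t.ne_zero, (hint a).1 ha, ?_⟩
    rw [hgt, Units.val_mul, Units.val_pow_eq_pow_val, hs]
  · intro q n s g hg
    refine AddSubgroup.subset_closure (Or.inr ⟨g, ⟨rho h s, ?_, hg⟩, one0, ?_⟩)
    · exact (hint _).2 (rho h).isIntegralElem_map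
    · rw [one0, ← sym_cons]
      congr 1
      funext i
      fin_cases i
      rfl
  · intro z x hz hzx hx v
    constructor
    · rw [rho_comp hz hzx hx]
      exact (rho hz).isIntegralElem_map
    · have h1 : (rho hx (v : X.presheaf.stalk x))⁻¹ =
          rho hx ((v⁻¹ : (X.presheaf.stalk x)ˣ) : X.presheaf.stalk x) := by
        refine inv_eq_of_mul_eq_one_right ?_
        rw [← map_mul, Units.mul_inv, map_one]
      rw [h1, rho_comp hz hzx hx]
      exact (rho hz).isIntegralElem_map

end Pool.Agent.H63.KG
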