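import Pool.Agent.H77.KG.Targets
import Pool.Agent.H77.BCP.Asm

/-!
# Row ADT: definable abelian groups (helper63)
-/

set_option autoImplicit false

open Set Pool.Agent.H77.BC Pool.Agent.H77.BD Pool.Agent.H77.KG Pool.Agent.H77.BCP

namespace Pool.Agent.H63.KG.ADT

variable {M : Type} {U : RU M} {V : Type} [AddCommGroup V] [Cod M V]

private theorem dg [DAb U V] : @DG M U (Multiplicative V) Multiplicative.group _ := by
  have hV : Ful U V := (inferInstance : DAb U V).toFul
  refine ⟨?_⟩
  have h : DFn U (fun p : V × V => p.1 + p.2) := DAb.add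
  exact h

private abbrev ts (A : AddSubgroup V) : Subgroup (Multiplicative V) := AddSubgroup.toSubgroup A

private abbrev tf (H : Subgroup (Multiplicative V)) : AddSubgroup V := Subgroup.toAddSubgroup' H

private theorem mem_tf (H : Subgroup (Multiplicative V)) (v : V) :
    v ∈ tf H ↔ Multiplicative.ofAdd v ∈ H := Iff.rfl

private theorem mem_ts (A : AddSubgroup V) (v : V) :
    Multiplicative.ofAdd v ∈ ts A ↔ v ∈ A := Iff.rfl

private theorem D_ts (A : AddSubgroup V) :
    U.D (ts A : Set (Multiplicative V)) ↔ U.D (A : Set V) := Iff.rfl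

private theorem D_tf (H : Subgroup (Multiplicative V)) :
    U.D (tf H : Set V) ↔ U.D (H : Set (Multiplicative V)) := Iff.rfl

private theorem R_ts (A : AddSubgroup V) :
    U.R (ts A : Set (Multiplicative V)) = U.R (A : Set V) := rfl

private theorem R_tf (H : Subgroup (Multiplicative V)) :
    U.R (tf H : Set V) = U.R (H : Set (Multiplicative V)) := rfl

private theorem tf_ts (A : AddSubgroup V) : tf (ts A) = A := rfl

private theorem ts_tf (H : Subgroup (Multiplicative V)) : ts (tf H) = H := rfl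

private theorem cn_ts (A : AddSubgroup V) : CnS U A ↔ Conn U (ts A) := by
  constructor
  · rintro ⟨h1, h2⟩
    refine ⟨h1, fun L hL hd hr => ?_⟩
    have h3 : tf L = A := h2 (tf L) (fun v hv => hL hv) hd hr
    rw [← ts_tf L, h3]
  · rintro ⟨h1, h2⟩
    refine ⟨h1, fun L hL hd hr => ?_⟩
    have h3 : ts L = ts A := h2 (ts L) (fun v hv => hL hv) hd hr
    rw [← tf_ts L, h3, tf_ts]

private theorem rel_ts (A B : AddSubgroup V) : (ts A).relIndex (ts B) = A.relIndex B := rfl

private theorem D_fin [DAb U V] {I : Type} (J : Finset I) (s : I → AddSubgroup V)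
    (h : ∀ i, U.D (s i : Set V)) : U.D ((⨅ j ∈ J, s j : AddSubgroup V) : Set V) := by
  classical
  have hV : Ful U V := (inferInstance : DAb U V).toFul
  induction J using Finset.induction_on with
  | empty =>
    have h1 : ((⨅ j ∈ (∅ : Finset I), s j : AddSubgroup V) : Set V) = univ := by simp
    rw [h1]; exact Ful.full
  | insert i J hi ih =>
    rw [Finset.iInf_insert, AddSubgroup.coe_inf]
    exact D_and (p := fun v => v ∈ s i) (q := fun v => v ∈ (⨅ j ∈ J, s j : AddSubgroup V)) (h i) ih

theorem pf_ADT (hCCE : T_CCE) : T_ADT := by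
  intro M U V _ _ _
  have hV : Ful U V := (inferInstance : DAb U V).toFul
  have hdg : @DG M U (Multiplicative V) Multiplicative.group _ := dg
  refine ⟨?_, ?_, ?_, ?_, ?_⟩
  · intro A B hA hB hAB
    have h1 := a_GRA U (ts B) (ts A) hB hA (fun v hv => hAB hv)
    exact h1
  · intro s hs
    obtain ⟨J, hJ⟩ := @a_GRD M U (Multiplicative V) Multiplicative.group _ hdg s
      (fun A => ts A.1) (fun A => hs A.1 A.2)
    have h1 : (sInf s : AddSubgroup V) = ⨅ j ∈ J, (fun A : s => A.1) j := by
      apply le_antisymm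
      · refine le_iInf₂ fun j _ => sInf_le j.2
      · refine le_sInf fun A hA v hv => ?_
        have h2 := hJ ⟨A, hA⟩
        have h3 : Multiplicative.ofAdd v ∈ ⨅ j ∈ J, ts (j : s).1 := by
          simp only [AddSubgroup.mem_iInf] at hv
          simp only [Subgroup.mem_iInf]
          exact hv
        exact h2 h3
    rw [h1]
    exact D_fin J _ fun i => hs i.1 i.2
  · intro A B hA hB
    have h1 : ((A ⊔ B : AddSubgroup V) : Set V) =
        {z | ∃ p : V × V, (p.1 ∈ A ∧ p.2 ∈ B) ∧ z = p.1 + p.2} := by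
      ext z
      constructor
      · intro hz
        obtain ⟨a, ha, b, hb, he⟩ := AddSubgroup.mem_sup.mp hz
        exact ⟨(a, b), ⟨ha, hb⟩, he.symm⟩
      · rintro ⟨p, ⟨ha, hb⟩, he⟩
        exact AddSubgroup.mem_sup.mpr ⟨p.1, ha, p.2, hb, he.symm⟩
    rw [h1]
    refine D_exists (p := fun (z : V) (p : V × V) => (p.1 ∈ A ∧ p.2 ∈ B) ∧ z = p.1 + p.2) ?_
    refine D_and (D_and ?_ ?_) ?_
    · exact D_subst (p := fun v => v ∈ A) hA (DFn_comp DFn_fst DFn_snd)
    · exact D_subst (p := fun v => v ∈ B) hB (DFn_comp DFn_snd DFn_snd)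
    · exact D_eqf DFn_fst (DFn_aadd (DFn_comp DFn_fst DFn_snd) (DFn_comp DFn_snd DFn_snd))
  · intro A hA
    obtain ⟨h1, h2, h3, h4, h5, h6⟩ :=
      @hCCE M U (Multiplicative V) Multiplicative.group _ hdg (ts A) hA
    refine ⟨tf (cc U (ts A)), fun v hv => h2 hv, (cn_ts _).mpr h1, h3, h4, ?_⟩
    intro σ hσ hinv
    -- the smallest definable subgroup of full rank
    have key : ∀ τ : V ≃+ V, DFn U (fun v => τ v) → (∀ v, v ∈ A ↔ τ v ∈ A) →
        ∀ v, v ∈ tf (cc U (ts A)) → τ v ∈ tf (cc U (ts A)) := by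
      intro τ hτ hi v hv
      let τm : Multiplicative V ≃* Multiplicative V := AddEquiv.toMultiplicative τ
      obtain ⟨c1, c2, -⟩ :=
        @a_CNA M U (Multiplicative V) Multiplicative.group _ hdg τm hτ (cc U (ts A)) h1.1
      have h7 : cc U (ts A) ≤ (cc U (ts A)).comap τm.toMonoidHom := by
        refine h5 _ ?_ c1 ?_
        · intro g hg
          have hg' : τ g.toAdd ∈ A := h2 hg
          exact (hi g.toAdd).mpr hg'
        · rw [c2, h3]
      exact h7 hv
    intro v
    constructor
    · exact key σ hσ hinv v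
    · intro hv
      have hs : DFn U (fun v => σ.symm v) := by
        have h8 : U.D {z : V × V | z.1 = σ z.2} := D_eqf DFn_fst (DFn_comp hσ DFn_snd)
        have h9 : {z : V × V | z.2 = σ.symm z.1} = {z : V × V | z.1 = σ z.2} := by
          ext z
          change z.2 = σ.symm z.1 ↔ z.1 = σ z.2
          rw [AddEquiv.eq_symm_apply, eq_comm]
        unfold DFn
        rw [h9]; exact h8
      have h10 := key σ.symm hs (fun v => by rw [hinv (σ.symm v), AddEquiv.apply_symm_apply])
        (σ v) hv
      rwa [AddEquiv.symm_apply_apply] at h10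
  · intro A hA X Y hX hY dX dY nX nY rX rY
    exact a_DEG U (ts A) ((cn_ts A).mp hA) X Y dX dY hX hY nX nY rX rY

end Pool.Agent.H63.KG.ADT
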